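import Pool.Agent.H49.Collide

set_option autoImplicit false

namespace Pool.Agent.Results.MP_a5410e_nt.Counterexample

open Polynomial

/-- Q1 is false in every characteristic `p`, with `L = F_p(t)`. -/
theorem result (p : ℕ) [Fact p.Prime] :
    ∃ (f : (ZMod p)[X]) (α₁ α₂ β : RatFunc (ZMod p)),
      2 ≤ f.natDegree ∧
      (∃ k : ℕ, f.coeff k ≠ 0 ∧ k ≠ 0 ∧ ∀ i : ℕ, k ≠ p ^ i) ∧
      ¬ IsAlgebraic (ZMod p) α₁ ∧ ¬ IsAlgebraic (ZMod p) α₂ ∧ ¬ IsAlgebraic (ZMod p) β ∧
      aeval α₁ f ≠ aeval α₂ f ∧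
      Set.Infinite {l : AlgebraicClosure (RatFunc (ZMod p)) | ∃ m n : ℕ, 1 ≤ m ∧ 1 ≤ n ∧
        (fun x => aeval x f + l)^[m] (algebraMap _ (AlgebraicClosure (RatFunc (ZMod p))) α₁) =
          algebraMap _ (AlgebraicClosure (RatFunc (ZMod p))) β ∧
        (fun x => aeval x f + l)^[n] (algebraMap _ (AlgebraicClosure (RatFunc (ZMod p))) α₂) =
          algebraMap _ (AlgebraicClosure (RatFunc (ZMod p))) β} := by
  have hp : p.Prime := Fact.out
  have h2 := hp.two_le
  have hdeg := Pool.Agent.H49.Collide.natDegree_f p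
  have hX : ¬ IsAlgebraic (ZMod p) (RatFunc.X : RatFunc (ZMod p)) := RatFunc.transcendental_X
  refine ⟨(X ^ p - X) ^ (p + 1) + X, RatFunc.X, RatFunc.X + 1, RatFunc.X, by rw [hdeg]; nlinarith,
    ⟨(p + 1) * p, ?_, by positivity, fun i hi => ?_⟩, hX, fun h => hX ?_, hX, ?_, ?_⟩
  · rw [← hdeg]
    apply leadingCoeff_ne_zero.2
    intro h0
    rw [h0, natDegree_zero] at hdeg
    nlinarith
  · have h1 : (p + 1) ∣ p ^ i := ⟨p, hi.symm⟩
    have h3 : Nat.Coprime (p + 1) (p ^ i) := Nat.Coprime.pow_right _ (by simp)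
    have := Nat.Coprime.eq_one_of_dvd h3 h1
    omega
  · have := h.sub (isAlgebraic_one (R := ZMod p) (A := RatFunc (ZMod p)))
    simpa using this
  · rw [Pool.Agent.H49.Collide.aeval_shift]
    exact fun h => one_ne_zero (left_eq_add.1 h)
  · have : CharP (AlgebraicClosure (RatFunc (ZMod p))) p :=
      charP_of_injective_algebraMap (algebraMap (ZMod p) _).injective p
    have := Pool.Agent.H49.Collide.infinite_of_commute p hp
      (((X ^ p - X) ^ (p + 1) + X : (ZMod p)[X]).map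
        (algebraMap (ZMod p) (AlgebraicClosure (RatFunc (ZMod p)))))
      (by rw [natDegree_map, hdeg]; nlinarith)
      (fun x => by simp only [eval_map_algebraMap]; exact Pool.Agent.H49.Collide.aeval_shift p x)
      (algebraMap _ (AlgebraicClosure (RatFunc (ZMod p))) (RatFunc.X : RatFunc (ZMod p)))
    simp only [eval_map_algebraMap] at this
    rw [map_add, map_one]
    exact this

end Pool.Agent.Results.MP_a5410e_nt.Counterexample
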